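import Pool.Agent.H927.QP.St

/-!
# `inv : S_inv`: the pairing on `M ⊗ M` is invariant modulo `2`
-/

set_option autoImplicit false

open scoped TensorProduct commutatorElement

noncomputable section

namespace Pool.Agent.H927.QP.Part_inv

open Pool.Agent.H297.QL (Gr gam cl gbr comp hc LV inc lift)

attribute [local instance 100] LieRing.ofAssociativeRing

variable {R : Type} [CommRing R]

/-! ### The derivation -/

lemma hat_x (k l c : Fin 3) : hat R k l (x R c) = if c = k then
    Polynomial.C (x R k) + Polynomial.X * Polynomial.C (x R l * x R k - x R k * x R l)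
      - Polynomial.X ^ 2 * Polynomial.C ((x R l * x R k - x R k * x R l) * x R l)
    else Polynomial.C (x R c) := by
  unfold hat
  rw [liftA_x]

lemma hat_zero (k l : Fin 3) (a : FA R) : (hat R k l a).coeff 0 = a := by
  refine indA R (p := fun a => (hat R k l a).coeff 0 = a) ?_ ?_ ?_ ?_ a
  · intro r
    rw [AlgHom.commutes, Polynomial.algebraMap_apply, Polynomial.coeff_C_zero]
  · intro c
    rw [hat_x]
    by_cases hc : c = k
    · rw [if_pos hc, hc]
      simp
    · rw [if_neg hc, Polynomial.coeff_C_zero]
  · intro a b ha hb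
    rw [map_add, Polynomial.coeff_add, ha, hb]
  · intro a b ha hb
    rw [map_mul, Polynomial.mul_coeff_zero, ha, hb]

lemma del_mul (k l : Fin 3) (a b : FA R) :
    del R k l (a * b) = del R k l a * b + a * del R k l b := by
  show (hat R k l (a * b)).coeff 1 = (hat R k l a).coeff 1 * b + a * (hat R k l b).coeff 1
  rw [map_mul, Polynomial.mul_coeff_one, hat_zero, hat_zero, add_comm]

lemma del_x (k l c : Fin 3) : del R k l (x R c) =
    if c = k then x R l * x R k - x R k * x R l else 0 := by
  show (hat R k l (x R c)).coeff 1 = _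
  rw [hat_x]
  by_cases hc : c = k
  · rw [if_pos hc, if_pos hc]
    rw [Polynomial.coeff_sub, Polynomial.coeff_add, Polynomial.coeff_X_mul,
      Polynomial.coeff_X_pow_mul']
    simp
  · rw [if_neg hc, if_neg hc]
    simp [Polynomial.coeff_C]

lemma del_alg (k l : Fin 3) (r : R) : del R k l (algebraMap R (FA R) r) = 0 := by
  show (hat R k l (algebraMap R (FA R) r)).coeff 1 = 0
  rw [AlgHom.commutes, Polynomial.algebraMap_apply, Polynomial.coeff_C]
  simp

lemma del_one (k l : Fin 3) : del R k l (1 : FA R) = 0 := by
  have := del_alg (R := R) k l 1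
  rwa [map_one] at this

/-! ### Reversal -/

lemma rev_mul (a b : FA R) : rev R (a * b) = rev R b * rev R a := by
  show (revOp R (a * b)).unop = (revOp R b).unop * (revOp R a).unop
  rw [map_mul, MulOpposite.unop_mul]

lemma rev_x (c : Fin 3) : rev R (x R c) = x R c := by
  show (revOp R (x R c)).unop = x R c
  unfold revOp
  rw [liftA_x, MulOpposite.unop_op]

lemma rev_alg (r : R) : rev R (algebraMap R (FA R) r) = algebraMap R (FA R) r := by
  show (revOp R (algebraMap R (FA R) r)).unop = _
  rw [AlgHom.commutes, MulOpposite.algebraMap_apply, MulOpposite.unop_op]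

lemma rev_del (k l : Fin 3) (a : FA R) : rev R (del R k l a) = - del R k l (rev R a) := by
  refine indA R (p := fun a => rev R (del R k l a) = - del R k l (rev R a)) ?_ ?_ ?_ ?_ a
  · intro r
    rw [del_alg, rev_alg, del_alg, map_zero, neg_zero]
  · intro c
    rw [rev_x, del_x]
    by_cases hc : c = k
    · rw [if_pos hc, map_sub, rev_mul, rev_mul, rev_x, rev_x]
      abel
    · rw [if_neg hc, map_zero, neg_zero]
  · intro a b ha hb
    rw [map_add, map_add, map_add, map_add, ha, hb]
    abel
  · intro a b ha hb
    rw [del_mul, map_add, rev_mul, rev_mul, rev_mul, ha, hb, del_mul, neg_add]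
    rw [mul_neg, neg_mul]
    abel

/-! ### Words -/

lemma wd_cons (c : Fin 3) (w : List (Fin 3)) : wd R (c :: w) = x R c * wd R w := by
  unfold wd
  rw [List.map_cons, List.prod_cons]

lemma wd_append (v w : List (Fin 3)) : wd R (v ++ w) = wd R v * wd R w := by
  unfold wd
  rw [List.map_append, List.prod_append]

lemma wd_nil : wd R [] = 1 := rfl

lemma bas_apply (w : FreeMonoid (Fin 3)) : bas R w = wd R w.toList := by
  show FreeAlgebra.basisFreeMonoid R (Fin 3) w = _
  unfold FreeAlgebra.basisFreeMonoid
  rw [Module.Basis.map_apply, Finsupp.coe_basisSingleOne]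
  show FreeAlgebra.equivMonoidAlgebraFreeMonoid.symm (MonoidAlgebra.single w 1) = _
  show (MonoidAlgebra.lift R (FreeAlgebra R (Fin 3)) (FreeMonoid (Fin 3))) (FreeMonoid.lift (FreeAlgebra.ι R)) (MonoidAlgebra.single w 1) = _
  rw [MonoidAlgebra.lift_single, one_smul, FreeMonoid.lift_apply]
  rfl

lemma wfun_wd (g : List (Fin 3) → ℤ) (w : List (Fin 3)) : wfun R g (wd R w) = ((g w : ℤ) : R) := by
  have h := bas_apply (R := R) (FreeMonoid.ofList w)
  rw [FreeMonoid.toList_ofList] at h
  rw [← h]
  unfold wfun
  rw [Module.Basis.constr_basis, FreeMonoid.toList_ofList]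

/-- the values of the functionals on words -/
def gi (i j : Fin 2) (v : List (Fin 3)) : ℤ := if v ∈ gl i j then 1 else 0

lemma gf_wd (i j : Fin 2) (w : List (Fin 3)) : gf R i j (wd R w) = ((gi i j w : ℤ) : R) :=
  wfun_wd _ _

lemma gl_len : ∀ i j : Fin 2, ∀ v ∈ gl i j, v.length = 7 := by decide +kernel

lemma gi_len (i j : Fin 2) (v : List (Fin 3)) (h : v.length ≠ 7) : gi i j v = 0 := by
  unfold gi
  rw [if_neg]
  intro hv
  exact h (gl_len i j v hv)

/-- `del k l` of a word -/
def delL (k l : Fin 3) : List (Fin 3) → List (ℤ × List (Fin 3))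
  | [] => []
  | c :: w => (if c = k then [(1, l :: k :: w), (-1, k :: l :: w)] else []) ++
      (delL k l w).map (fun p => (p.1, c :: p.2))

/-- evaluation -/
def ev (R : Type) [CommRing R] (L : List (ℤ × List (Fin 3))) : FA R :=
  (L.map (fun p => p.1 • wd R p.2)).sum

lemma ev_append (L L' : List (ℤ × List (Fin 3))) : ev R (L ++ L') = ev R L + ev R L' := by
  unfold ev
  rw [List.map_append, List.sum_append]

lemma ev_cons (c : Fin 3) (L : List (ℤ × List (Fin 3))) :
    ev R (L.map (fun p => (p.1, c :: p.2))) = x R c * ev R L := by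
  induction L with
  | nil => simp [ev]
  | cons p L ih =>
    unfold ev at ih ⊢
    rw [List.map_cons, List.map_cons, List.sum_cons, List.map_cons, List.sum_cons, mul_add, ← ih]
    congr 1
    show p.1 • wd R (c :: p.2) = x R c * (p.1 • wd R p.2)
    rw [wd_cons, mul_smul_comm]

lemma del_wd (k l : Fin 3) (w : List (Fin 3)) : del R k l (wd R w) = ev R (delL k l w) := by
  induction w with
  | nil =>
    rw [wd_nil, del_one]
    rfl
  | cons c w ih =>
    rw [wd_cons, del_mul, ih, delL, ev_append, ev_cons, del_x]
    congr 1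
    by_cases hc : c = k
    · rw [if_pos hc, if_pos hc]
      unfold ev
      simp only [List.map_cons, List.map_nil, List.sum_cons, List.sum_nil, wd_cons, one_smul,
        neg_smul, add_zero, sub_mul, mul_assoc]
      abel
    · rw [if_neg hc, if_neg hc, zero_mul]
      rfl

/-- the value of a functional -/
def sg (i j : Fin 2) (L : List (ℤ × List (Fin 3))) : ℤ := (L.map (fun p => p.1 * gi i j p.2)).sum

lemma gf_ev (i j : Fin 2) (L : List (ℤ × List (Fin 3))) : gf R i j (ev R L) = ((sg i j L : ℤ) : R) := by
  induction L with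
  | nil => simp [ev, sg]
  | cons p L ih =>
    unfold ev sg at ih ⊢
    rw [List.map_cons, List.sum_cons, List.map_cons, List.sum_cons, map_add, ih, map_zsmul, gf_wd]
    push_cast
    rw [zsmul_eq_mul]

/-- the integer value of `J` on a word -/
def Jn (k l : Fin 3) (i j : Fin 2) (w : List (Fin 3)) : ℤ :=
  sg i j (delL k l w) +
    aco k l i * (bco k 0 * gi 0 j (l :: w) + bco k 1 * gi 1 j (l :: w)) +
    aco k l j * (bco k 0 * gi i 0 (w ++ [l]) + bco k 1 * gi i 1 (w ++ [l]))

/-! ### Transposition and the finite check -/

/-- the words of `del k l`, without signs -/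
def dl (k l : Fin 3) : List (Fin 3) → List (List (Fin 3))
  | [] => []
  | c :: w => (if c = k then [l :: k :: w, k :: l :: w] else []) ++ (dl k l w).map (fun v => c :: v)

/-- the transposed operator -/
def tr (k l : Fin 3) : List (Fin 3) → List (List (Fin 3))
  | [] => []
  | [_] => []
  | a :: b :: v => (if a = l ∧ b = k then [k :: v] else []) ++
      (if a = k ∧ b = l then [k :: v] else []) ++ (tr k l (b :: v)).map (fun u => a :: u)

lemma one_count {α : Type} [BEq α] [LawfulBEq α] [DecidableEq α] (P : Prop) [Decidable P] (u w : α) :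
    (if P then [u] else []).count w = if P ∧ u = w then 1 else 0 := by
  by_cases h : P
  · by_cases h2 : u = w
    · simp [h, h2]
    · simp [h, h2]
  · simp [h]

lemma cnt_map (a c : Fin 3) (w : List (Fin 3)) (L : List (List (Fin 3))) :
    (L.map (fun v => a :: v)).count (c :: w) = if a = c then L.count w else 0 := by
  induction L with
  | nil => simp
  | cons u L ih =>
    rw [List.map_cons, List.count_cons, List.count_cons, ih]
    by_cases h : a = c
    · by_cases h2 : u = w
      · simp [h, h2]
      · simp [h, h2]
    · simp [h]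

lemma cnt_map_nil (a : Fin 3) (L : List (List (Fin 3))) :
    (L.map (fun v => a :: v)).count [] = 0 := by
  induction L with
  | nil => simp
  | cons u L ih =>
    rw [List.map_cons, List.count_cons, ih]
    simp

lemma tr_nil (k l : Fin 3) (v : List (Fin 3)) : (tr k l v).count [] = 0 := by
  match v with
  | [] => simp [tr]
  | [_] => simp [tr]
  | a :: b :: v =>
    rw [tr, List.count_append, List.count_append, cnt_map_nil, one_count, one_count]
    simp

lemma dl_nil (k l : Fin 3) (w : List (Fin 3)) : (dl k l w).count [] = 0 := by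
  match w with
  | [] => simp [dl]
  | c :: w =>
    rw [dl, List.count_append, cnt_map_nil]
    by_cases h1 : c = k <;> simp [h1]

lemma e1' (a b c k l : Fin 3) (v w : List (Fin 3)) :
   (if c = k then [l :: k :: w, k :: l :: w] else []).count (a :: b :: v) =
          (if a = l ∧ b = k then [k :: v] else []).count (c :: w) +
            (if a = k ∧ b = l then [k :: v] else []).count (c :: w) := by
  rw [one_count, one_count]
  have h : (if c = k then [l :: k :: w, k :: l :: w] else []).count (a :: b :: v) =
    (if c = k ∧ l :: k :: w = a :: b :: v then 1 else 0) + (if c = k ∧ k :: l :: w = a :: b :: v then 1 else 0) := by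
    by_cases hc : c = k
    · rw [if_pos hc, List.count_cons, List.count_cons, List.count_nil]
      simp only [beq_iff_eq, hc, true_and]
      omega
    · simp [hc]
  rw [h]
  congr 1
  · refine if_congr ?_ rfl rfl
    simp only [List.cons.injEq]
    constructor
    · rintro ⟨rfl, rfl, rfl, rfl⟩
      simp
    · rintro ⟨⟨rfl, rfl⟩, rfl, rfl⟩
      simp
  · refine if_congr ?_ rfl rfl
    simp only [List.cons.injEq]
    constructor
    · rintro ⟨rfl, rfl, rfl, rfl⟩
      simp
    · rintro ⟨⟨rfl, rfl⟩, rfl, rfl⟩
      simp

lemma dl_tr (k l : Fin 3) (w : List (Fin 3)) : ∀ v, (dl k l w).count v = (tr k l v).count w := by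
  induction w with
  | nil =>
    intro v
    rw [tr_nil]
    simp [dl]
  | cons c w ih =>
    intro v
    match v with
    | [] =>
      rw [dl_nil]
      simp [tr]
    | [a] =>
      rw [dl, List.count_append, cnt_map, dl_nil]
      by_cases h1 : c = k <;> simp [h1, tr]
    | a :: b :: v =>
      rw [dl, tr, List.count_append, List.count_append, List.count_append, cnt_map, cnt_map, ih (b :: v)]
      have e3 : (if c = a then (tr k l (b :: v)).count w else 0) =
          if a = c then (tr k l (b :: v)).count w else 0 := by
        by_cases h : a = c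
        · rw [if_pos h, if_pos h.symm]
        · rw [if_neg h, if_neg (fun h' => h h'.symm)]
      rw [e1' a b c k l v w, e3]

/-- exchange of the two sums -/
lemma exch (L G : List (List (Fin 3))) :
    (L.map (fun p => G.count p)).sum = (G.map (fun v => L.count v)).sum := by
  induction L with
  | nil => simp
  | cons p L ih =>
    rw [List.map_cons, List.sum_cons, ih]
    have h : ∀ G : List (List (Fin 3)), (G.map (fun v => (p :: L).count v)).sum =
        G.count p + (G.map (fun v => L.count v)).sum := by
      intro G
      induction G with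
      | nil => simp
      | cons v G ihG =>
        rw [List.map_cons, List.sum_cons, ihG, List.map_cons, List.sum_cons, List.count_cons,
          List.count_cons]
        by_cases hv : p = v
        · subst hv
          simp
          omega
        · have hv' : v ≠ p := fun h => hv h.symm
          simp [hv, hv']
          omega
    rw [h G]

lemma count_flatMap' (G : List (List (Fin 3))) (f : List (Fin 3) → List (List (Fin 3)))
    (w : List (Fin 3)) : (G.flatMap f).count w = (G.map (fun v => (f v).count w)).sum := by
  induction G with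
  | nil => simp
  | cons v G ih => rw [List.flatMap_cons, List.count_append, ih, List.map_cons, List.sum_cons]

/-- tails of the words beginning with `l` -/
def hdl (l : Fin 3) (G : List (List (Fin 3))) : List (List (Fin 3)) :=
  G.filterMap (fun v => match v with
    | [] => none
    | a :: u => if a = l then some u else none)

lemma hdl_count (l : Fin 3) (w : List (Fin 3)) (G : List (List (Fin 3))) :
    (hdl l G).count w = G.count (l :: w) := by
  unfold hdl
  induction G with
  | nil => simp
  | cons v G ih =>
    match v with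
    | [] =>
      rw [List.filterMap_cons_none rfl, ih]
      simp
    | a :: u =>
      by_cases h : a = l
      · rw [List.filterMap_cons_some (b := u) (by simp [h]), List.count_cons, List.count_cons, ih]
        by_cases hu : u = w
        · simp [h, hu]
        · simp [h, hu]
      · rw [List.filterMap_cons_none (by simp [h]), ih]
        simp [h]

/-- beginnings of the words ending with `l` -/
def lsl (l : Fin 3) (G : List (List (Fin 3))) : List (List (Fin 3)) :=
  G.filterMap (fun v => if v.getLast? = some l then some v.dropLast else none)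

lemma lsl_count (l : Fin 3) (w : List (Fin 3)) (G : List (List (Fin 3))) :
    (lsl l G).count w = G.count (w ++ [l]) := by
  unfold lsl
  induction G with
  | nil => simp
  | cons v G ih =>
    by_cases h : v.getLast? = some l
    · rw [List.filterMap_cons_some (b := v.dropLast) (by simp [h]), List.count_cons,
        List.count_cons, ih]
      have e : (v.dropLast = w) ↔ (v = w ++ [l]) := by
        constructor
        · intro h2
          rw [← h2]
          exact (List.dropLast_append_getLast? l h).symm
        · intro h2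
          rw [h2, List.dropLast_concat]
      by_cases hu : v.dropLast = w
      · have hu2 := e.1 hu
        simp [hu2]
      · have hu2 : ¬ (v = w ++ [l]) := fun h3 => hu (e.2 h3)
        simp [hu, hu2]
    · rw [List.filterMap_cons_none (by simp [h]), ih, List.count_cons]
      have hu2 : ¬ (v = w ++ [l]) := by
        intro h3
        apply h
        rw [h3, List.getLast?_concat]
      simp [hu2]

/-- the list, if the coefficient is odd -/
def rp (e : ℤ) (L : List (List (Fin 3))) : List (List (Fin 3)) := if e % 2 = 0 then [] else L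

lemma rp_count (e : ℤ) (L : List (List (Fin 3))) (w : List (Fin 3)) :
    (((rp e L).count w : ℕ) : ZMod 2) = (e : ZMod 2) * ((L.count w : ℕ) : ZMod 2) := by
  unfold rp
  by_cases h : e % 2 = 0
  · rw [if_pos h]
    have h2 : (e : ZMod 2) = 0 := (ZMod.intCast_zmod_eq_zero_iff_dvd e 2).2 (Int.dvd_of_emod_eq_zero h)
    rw [h2]
    simp
  · rw [if_neg h]
    have h2 : (e : ZMod 2) = 1 := by
      have h3 : (2 : ℤ) ∣ e - 1 := by omega
      have h4 := (ZMod.intCast_zmod_eq_zero_iff_dvd (e - 1) 2).2 h3
      push_cast at h4
      exact sub_eq_zero.1 h4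
    rw [h2, one_mul]

/-- all the contributions -/
def LL (k l : Fin 3) (i j : Fin 2) : List (List (Fin 3)) :=
  (gl i j).flatMap (tr k l) ++
    rp (aco k l i * bco k 0) (hdl l (gl 0 j)) ++ rp (aco k l i * bco k 1) (hdl l (gl 1 j)) ++
    rp (aco k l j * bco k 0) (lsl l (gl i 0)) ++ rp (aco k l j * bco k 1) (lsl l (gl i 1))

set_option maxRecDepth 100000 in
lemma check : ∀ k l : Fin 3, k ≠ l → ∀ i j : Fin 2, ∀ w ∈ LL k l i j, (LL k l i j).count w % 2 = 0 := by
  decide +kernel

lemma gl_nodup : ∀ i j : Fin 2, (gl i j).Nodup := by decide +kernel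

lemma gi_count (i j : Fin 2) (v : List (Fin 3)) : gi i j v = ((gl i j).count v : ℤ) := by
  unfold gi
  rw [(gl_nodup i j).count]
  by_cases h : v ∈ gl i j
  · simp [h]
  · simp [h]

lemma sum_dl (k l : Fin 3) (w : List (Fin 3)) : ∀ f : List (Fin 3) → ZMod 2,
    ((delL k l w).map (fun p => (p.1 : ZMod 2) * f p.2)).sum = ((dl k l w).map f).sum := by
  induction w with
  | nil => intro f; simp [delL, dl]
  | cons c w ih =>
    intro f
    rw [delL, dl, List.map_append, List.map_append, List.sum_append, List.sum_append, List.map_map,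
      List.map_map]
    have h1 := ih (fun v => f (c :: v))
    have h2 : ((delL k l w).map ((fun p : ℤ × List (Fin 3) => (p.1 : ZMod 2) * f p.2) ∘
        fun p => (p.1, c :: p.2))).sum = ((dl k l w).map (f ∘ fun v => c :: v)).sum := h1
    rw [h2]
    congr 1
    by_cases hc : c = k
    · rw [if_pos hc, if_pos hc]
      simp only [List.map_cons, List.map_nil, List.sum_cons, List.sum_nil, Int.cast_one,
        Int.cast_neg, one_mul, ZMod.neg_eq_self_mod_two]
    · rw [if_neg hc, if_neg hc]
      rfl

lemma sg_dl (i j : Fin 2) (k l : Fin 3) (w : List (Fin 3)) :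
    ((sg i j (delL k l w) : ℤ) : ZMod 2) =
      ((((dl k l w).map (fun v => (gl i j).count v)).sum : ℕ) : ZMod 2) := by
  have h := sum_dl k l w (fun v => (((gl i j).count v : ℕ) : ZMod 2))
  have e1 : ((sg i j (delL k l w) : ℤ) : ZMod 2) = ((delL k l w).map (fun p => (p.1 : ZMod 2) *
      (((gl i j).count p.2 : ℕ) : ZMod 2))).sum := by
    unfold sg
    rw [Int.cast_list_sum, List.map_map]
    congr 1
    apply List.map_congr_left
    intro p _
    show (((p.1 * gi i j p.2 : ℤ)) : ZMod 2) = _
    rw [gi_count]
    push_cast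
    rfl
  have e2 : ((((dl k l w).map (fun v => (gl i j).count v)).sum : ℕ) : ZMod 2) =
      ((dl k l w).map (fun v => (((gl i j).count v : ℕ) : ZMod 2))).sum := by
    rw [Nat.cast_list_sum, List.map_map]
    rfl
  rw [e1, e2, h]

lemma cast_Jn (k l : Fin 3) (i j : Fin 2) (w : List (Fin 3)) :
    ((Jn k l i j w : ℤ) : ZMod 2) = (((LL k l i j).count w : ℕ) : ZMod 2) := by
  have e : (dl k l w).map (fun v => (gl i j).count v) = (dl k l w).map (fun v => (gl i j).count v) := rfl
  have h1 : ((dl k l w).map (fun v => (gl i j).count v)).sum = ((gl i j).flatMap (tr k l)).count w := by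
    rw [exch, count_flatMap']
    congr 1
    apply List.map_congr_left
    intro v _
    exact dl_tr k l w v
  unfold Jn LL
  rw [List.count_append, List.count_append, List.count_append, List.count_append]
  push_cast
  rw [rp_count, rp_count, rp_count, rp_count, hdl_count, hdl_count, lsl_count, lsl_count, sg_dl, h1,
    gi_count, gi_count, gi_count, gi_count]
  push_cast
  ring

lemma Jn_even (k l : Fin 3) (hkl : k ≠ l) (i j : Fin 2) (w : List (Fin 3)) :
    (2 : ℤ) ∣ Jn k l i j w := by
  refine (ZMod.intCast_zmod_eq_zero_iff_dvd _ 2).1 ?_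
  rw [cast_Jn]
  by_cases hw : w ∈ LL k l i j
  · have h := check k l hkl i j w hw
    exact (ZMod.natCast_eq_zero_iff _ 2).2 (Nat.dvd_of_mod_eq_zero h)
  · rw [List.count_eq_zero_of_not_mem hw]
    simp

/-! ### The functional `J` -/

/-- the functional whose evenness expresses the invariance -/
def J (k l : Fin 3) (i j : Fin 2) (a : FA K) : K :=
  gf K i j (del K k l a) +
    aco k l i • (bco k 0 • gf K 0 j (x K l * a) + bco k 1 • gf K 1 j (x K l * a)) +
    aco k l j • (bco k 0 • gf K i 0 (a * x K l) + bco k 1 • gf K i 1 (a * x K l))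

lemma J_wd (k l : Fin 3) (i j : Fin 2) (w : List (Fin 3)) :
    J k l i j (wd K w) = ((Jn k l i j w : ℤ) : K) := by
  have h1 : x K l * wd K w = wd K (l :: w) := (wd_cons l w).symm
  have h2 : wd K w * x K l = wd K (w ++ [l]) := by
    rw [wd_append, wd_cons, wd_nil, mul_one]
  unfold J Jn
  rw [h1, h2, del_wd, gf_ev, gf_wd, gf_wd, gf_wd, gf_wd]
  push_cast
  simp only [zsmul_eq_mul]

/-- even elements -/
def Ev (b : K) : Prop := ∃ c : K, b = 2 * c

lemma Ev.add {a b : K} (ha : Ev a) (hb : Ev b) : Ev (a + b) := by
  obtain ⟨c, hc⟩ := ha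
  obtain ⟨d, hd⟩ := hb
  exact ⟨c + d, by rw [hc, hd, mul_add]⟩

lemma Ev.smul {a : K} (r : K) (ha : Ev a) : Ev (r * a) := by
  obtain ⟨c, hc⟩ := ha
  exact ⟨r * c, by rw [hc]; ring⟩

lemma J_add (k l : Fin 3) (i j : Fin 2) (a b : FA K) :
    J k l i j (a + b) = J k l i j a + J k l i j b := by
  unfold J
  simp only [map_add, mul_add, add_mul, smul_add]
  abel

lemma J_smul (k l : Fin 3) (i j : Fin 2) (r : K) (a : FA K) :
    J k l i j (r • a) = r * J k l i j a := by
  unfold J
  simp only [map_smul, mul_smul_comm, smul_mul_assoc, smul_eq_mul, zsmul_eq_mul]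
  ring

lemma J_zero (k l : Fin 3) (i j : Fin 2) : J k l i j 0 = 0 := by
  unfold J
  simp

lemma J_even (k l : Fin 3) (hkl : k ≠ l) (i j : Fin 2) (a : FA K) : Ev (J k l i j a) := by
  have ha : a ∈ Submodule.span K (Set.range (bas K)) := by
    rw [(bas K).span_eq]
    exact Submodule.mem_top
  induction ha using Submodule.span_induction with
  | mem y hy =>
    obtain ⟨w, rfl⟩ := hy
    rw [bas_apply, J_wd]
    obtain ⟨c, hc⟩ := Jn_even k l hkl i j w.toList
    exact ⟨(c : K), by rw [hc]; push_cast; ring⟩
  | zero => exact ⟨0, by rw [J_zero, mul_zero]⟩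
  | add a b _ _ ha hb =>
    rw [J_add]
    exact ha.add hb
  | smul r a _ ha =>
    rw [J_smul]
    exact ha.smul r

/-! ### The invariance -/

lemma pr_apply (m m' : M K) : pr K m m' = ∑ i, ∑ j, gf K i j (rev K (m i) * m' j) := rfl

lemma D_apply (k l : Fin 3) (m : M K) (j : Fin 2) : D K k l m j = del K k l (m j) +
    bco k j • ((aco k l 0 • m 0 + aco k l 1 • m 1) * x K l) := rfl

lemma key (k l : Fin 3) (m m' : M K) :
    pr K (D K k l m) m' + pr K m (D K k l m') =
      (∑ i, ∑ j, J k l i j (rev K (m i) * m' j)) -
        2 * ∑ i, ∑ j, gf K i j (del K k l (rev K (m i)) * m' j) := by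
  have h : ∀ i, rev K (D K k l m i) = - del K k l (rev K (m i)) +
      bco k i • (x K l * (aco k l 0 • rev K (m 0) + aco k l 1 • rev K (m 1))) := by
    intro i
    rw [D_apply, map_add, map_zsmul, rev_mul, rev_x, rev_del, map_add, map_zsmul, map_zsmul]
  rw [pr_apply, pr_apply]
  simp only [h]
  simp only [D_apply, Fin.sum_univ_two, J, del_mul]
  simp only [add_mul, mul_add, map_add, map_neg, neg_mul, map_zsmul, smul_mul_assoc,
    mul_smul_comm, smul_add, mul_assoc]
  simp only [zsmul_eq_mul]
  ring

theorem inv : S_inv := by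
  intro k l hkl τ
  show Ev (fT K (D2 K k l τ))
  induction τ using TensorProduct.induction_on with
  | zero => exact ⟨0, by rw [map_zero, map_zero, mul_zero]⟩
  | add a b ha hb =>
    rw [map_add, map_add]
    exact ha.add hb
  | tmul m m' =>
    have h1 : fT K (D2 K k l (m ⊗ₜ[K] m')) = pr K (D K k l m) m' + pr K m (D K k l m') := by
      unfold D2 fT
      rw [LinearMap.add_apply, TensorProduct.map_tmul, TensorProduct.map_tmul, map_add,
        TensorProduct.lift.tmul, TensorProduct.lift.tmul]
      rfl
    rw [h1, key, sub_eq_add_neg]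
    have h2 : ∀ i j, Ev (J k l i j (rev K (m i) * m' j)) := fun i j => J_even k l hkl i j _
    have h3 : Ev (∑ i, ∑ j, J k l i j (rev K (m i) * m' j)) := by
      simp only [Fin.sum_univ_two]
      exact ((h2 0 0).add (h2 0 1)).add ((h2 1 0).add (h2 1 1))
    refine h3.add ⟨-∑ i, ∑ j, gf K i j (del K k l (rev K (m i)) * m' j), ?_⟩
    ring

end Pool.Agent.H927.QP.Part_inv
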